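import Pool.Agent.Y810.SP.All

/-!
# A nef and big class on a compact Kähler surface without smooth semipositive representatives

The definitions (`Form`, `Form.val`, `Form.IsKahler`, `Nef`, `Big`, `IsDisc`, `dl`) are in
`Pool.Agent.Y810.SP.Defs`. The surface is the blow-up of the torus `T × T`, `T = ℂ / ℤ[i]`, at the point
`(0, 0)` and at one point of the exceptional curve.
-/

set_option autoImplicit false

open Pool.Agent.Y810.SP
open scoped ContDiff Manifold

namespace Pool.Agent.Results.MP_4ff127_gt.NefBigNotSemipositive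

/-- There are a compact connected complex surface `X` with a Kähler form `Ω` and a smooth closed real
`(1,1)`-form `θ` on `X`, whose class is nef and big, such that for every smooth function `u` the form
`θ + dd^c u` is not semipositive: it is negative on the tangent vector of some holomorphic disc. -/
theorem result : ∃ (X : Type) (_ : TopologicalSpace X) (_ : ChartedSpace (ℂ × ℂ) X),
    IsManifold 𝓘(ℂ, ℂ × ℂ) ω X ∧ T2Space X ∧ CompactSpace X ∧ ConnectedSpace X ∧
    ∃ Ω θ : Form X, Ω.IsKahler ∧ Nef Ω θ ∧ Big Ω θ ∧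
      ∀ u : X → ℝ, ContMDiff 𝓘(ℝ, ℂ × ℂ) 𝓘(ℝ, ℝ) ∞ u →
        ∃ f : ℂ → X, IsDisc f ∧ θ.val f + dl u f < 0 := by
  obtain ⟨X, tX, cX, h1, h2, h3, h4, Ω, θ, h5, h6, h7, h8⟩ := all
  refine ⟨X, tX, cX, h1, h2, h3, h4, Ω, θ, h5, h6, h7, ?_⟩
  intro u hu
  by_contra hc
  push Not at hc
  exact h8 ⟨u, hu, fun f hf => by rw [zero_mul]; exact hc f hf⟩

end Pool.Agent.Results.MP_4ff127_gt.NefBigNotSemipositive
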